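import Pool.Agent.Lib.helper11.DiagZ

set_option autoImplicit false

namespace Pool.Agent.Results.MP_f02a84_al.NotRF

open H11Diag

/-- Thompson's group `F = ⟨x₀, x₁, … ∣ xᵢ⁻¹ xₙ xᵢ = xₙ₊₁ (i < n)⟩`. -/
abbrev ThompsonF : Type := PresentedGroup {r : FreeGroup ℕ | ∃ i n : ℕ, i < n ∧
  r = (FreeGroup.of i)⁻¹ * FreeGroup.of n * FreeGroup.of i * (FreeGroup.of (n + 1))⁻¹}

def x (n : ℕ) : ThompsonF := PresentedGroup.of n

lemma rel {i n : ℕ} (h : i < n) : (x i)⁻¹ * x n * x i = x (n + 1) := by
  have : (PresentedGroup.mk _ ((FreeGroup.of i)⁻¹ * FreeGroup.of n * FreeGroup.of i *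
      (FreeGroup.of (n + 1))⁻¹) : ThompsonF) = 1 := PresentedGroup.one_of_mem ⟨i, n, h, rfl⟩
  simp only [map_mul, map_inv] at this
  exact mul_inv_eq_one.1 this

def u (k : ℕ) : ThompsonF := x (2 * k) * (x (2 * k + 1))⁻¹

lemma u_x {k m : ℕ} (h : 2 * k + 1 < m) : Commute (u k) (x m) := by
  have h1 := rel h
  have h2 := rel (show 2 * k < m by omega)
  have h3 : (x (2 * k + 1))⁻¹ * x m = x (m + 1) * (x (2 * k + 1))⁻¹ := by rw [← h1]; group
  have h4 : x (2 * k) * x (m + 1) = x m * x (2 * k) := by rw [← h2]; group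
  show u k * x m = x m * u k
  rw [u, mul_assoc, h3, ← mul_assoc, h4, mul_assoc]

lemma u_u (k l : ℕ) : Commute (u k) (u l) := by
  have : ∀ k l, k < l → Commute (u k) (u l) := fun k l h =>
    (u_x (by omega)).mul_right (u_x (by omega)).inv_right
  rcases lt_trichotomy k l with h | rfl | h
  exacts [this k l h, Commute.refl _, (this l k h).symm]

def Y (n : ℕ) : Equiv.Perm ℚ where
  toFun t := if t ≤ n then t else if t ≤ n + 2 then (t + n) / 2 else t - 1
  invFun t := if t ≤ n then t else if t ≤ n + 1 then 2 * t - n else t + 1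
  left_inv t := by
    simp only
    split_ifs <;> linarith
  right_inv t := by
    simp only
    split_ifs <;> linarith

lemma Y_ap (n : ℕ) (t : ℚ) :
    Y n t = if t ≤ n then t else if t ≤ n + 2 then (t + n) / 2 else t - 1 := rfl

lemma Y_inv (n : ℕ) (t : ℚ) :
    (Y n)⁻¹ t = if t ≤ n then t else if t ≤ n + 1 then 2 * t - n else t + 1 := rfl

def model : ThompsonF →* Equiv.Perm ℚ := PresentedGroup.toGroup (f := Y) (by
  rintro _ ⟨i, n, h, rfl⟩
  simp only [map_mul, map_inv, FreeGroup.lift_apply_of]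
  rw [mul_inv_eq_one, mul_assoc, inv_mul_eq_iff_eq_mul]
  ext t
  have : (i : ℚ) + 1 ≤ n := by exact_mod_cast h
  simp only [Equiv.Perm.mul_apply, Y_ap]
  push_cast
  split_ifs <;> linarith)

lemma model_u (k : ℕ) (t : ℚ) : model (u k) t = Y (2 * k) ((Y (2 * k + 1))⁻¹ t) := by
  simp [u, x, model]

lemma u_fix {k : ℕ} {t : ℚ} (h : t ≤ 2 * k ∨ 2 * k + 2 ≤ t) (e : ℤ) : (model (u k) ^ e) t = t := by
  apply Equiv.Perm.zpow_apply_eq_self_of_apply_eq_self
  rw [model_u, Y_ap, Y_inv]
  push_cast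
  rcases h with h | h <;> split_ifs <;> linarith

lemma u_move (k : ℕ) (e : ℤ) (h : (model (u k) ^ e) (2 * k + 1) = 2 * k + 1) : e = 0 := by
  have h1 : ∀ n : ℕ, (model (u k) ^ n) (2 * k + 1) = 2 * k + (1 / 2) ^ n := by
    intro n
    induction n with
    | zero => simp
    | succ n ih =>
      rw [pow_succ', Equiv.Perm.mul_apply, ih, model_u, Y_ap, Y_inv]
      have a1 : (0 : ℚ) < (1 / 2) ^ n := by positivity
      have a2 : ((1 : ℚ) / 2) ^ n ≤ 1 := pow_le_one₀ (by norm_num) (by norm_num)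
      rw [pow_succ]
      push_cast
      split_ifs <;> linarith
  have h2 : ∀ n : ℕ, (model (u k) ^ n) (2 * k + 1) = 2 * k + 1 → n = 0 := by
    intro n hn
    rw [h1] at hn
    by_contra h0
    have : ((1 : ℚ) / 2) ^ n < 1 := pow_lt_one₀ (by norm_num) (by norm_num) h0
    linarith
  rcases Int.eq_nat_or_neg e with ⟨n, rfl | rfl⟩
  · rw [zpow_natCast] at h
    rw [h2 n h]; rfl
  · rw [zpow_neg, zpow_natCast, Equiv.Perm.inv_eq_iff_eq] at h
    rw [h2 n h.symm]; rfl

lemma noF (f : ThompsonF →* DD) : ¬ Function.Injective f := by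
  intro hf
  obtain ⟨e, he, h⟩ := no_fourD (fun i => f (u i)) fun i j => (u_u i j).map f
  simp only [← map_zpow, ← map_mul] at h
  rw [← map_one f] at h
  have h2 := congrArg model (hf h)
  simp only [map_mul, map_zpow, map_one] at h2
  have h3 : ∀ t : ℚ, (model (u 0) ^ e 0) ((model (u 1) ^ e 1) ((model (u 2) ^ e 2)
      ((model (u 3) ^ e 3) t))) = t := fun t => DFunLike.congr_fun h2 t
  have e0 : e 0 = 0 := u_move 0 _ (by
    have := h3 1
    rw [u_fix (k := 3) (by norm_num), u_fix (k := 2) (by norm_num),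
      u_fix (k := 1) (by norm_num)] at this
    simpa using this)
  have e1 : e 1 = 0 := u_move 1 _ (by
    have := h3 3
    rw [u_fix (k := 3) (by norm_num), u_fix (k := 2) (by norm_num), e0] at this
    norm_num at this ⊢
    exact this)
  have e2 : e 2 = 0 := u_move 2 _ (by
    have := h3 5
    rw [u_fix (k := 3) (by norm_num), e0, e1] at this
    norm_num at this ⊢
    exact this)
  have e3 : e 3 = 0 := u_move 3 _ (by
    have := h3 7
    rw [e0, e1, e2] at this
    norm_num at this ⊢
    exact this)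
  apply he
  funext i
  fin_cases i <;> assumption

lemma fd {K M : Type*} [Field K] [Ring M] [Algebra K M] [FiniteDimensional K M]
    (T T' H a : M) (h1 : T * T' = 1) (hc : ∀ n : ℕ, Commute a (T' ^ n * H * T ^ n)) :
    Commute a (T * H * T') := by
  let U : Submodule K M :=
    { carrier := {X | ∀ n : ℕ, Commute a (T' ^ n * X * T ^ n)}
      zero_mem' := fun n => by simp
      add_mem' := fun {x y} hx hy n => by
        rw [mul_add, add_mul]; exact (hx n).add_right (hy n)
      smul_mem' := fun c x hx n => by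
        rw [mul_smul_comm, smul_mul_assoc]; exact (hx n).smul_right c }
  let E : M →ₗ[K] M := LinearMap.mulLeft K T' ∘ₗ LinearMap.mulRight K T
  have hE : ∀ X, E X = T' * X * T := fun X => by simp [E, mul_assoc]
  have hinv : ∀ X, T * E X * T' = X := fun X => by
    rw [hE]
    simp only [← mul_assoc, h1, one_mul]
    rw [mul_assoc, h1, mul_one]
  have hU : ∀ X ∈ U, E X ∈ U := by
    intro X hX n
    have := hX (n + 1)
    rw [hE]
    convert this using 1
    rw [pow_succ, pow_succ']
    simp only [mul_assoc]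
  have hi : Function.Injective (E.restrict hU) := by
    intro X Y h
    apply Subtype.ext
    have h' : E X.1 = E Y.1 := congrArg Subtype.val h
    rw [← hinv X.1, h', hinv]
  obtain ⟨v, hv⟩ := LinearMap.surjective_of_injective hi ⟨H, hc⟩
  have hv' : E v.1 = H := congrArg Subtype.val hv
  rw [← hv', hinv]
  simpa using v.2 0

universe w

theorem result : ∃ (A : Type) (R : Set (List A × List A)) (b : List A),
    Finite A ∧ R.Finite ∧ (∀ r ∈ R, r.1 ≠ [] ∧ r.2 ≠ [] ∧ r.swap ∉ R) ∧ b ≠ [] ∧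
    (∀ f : ThompsonF →* DG R b, ¬ Function.Injective f) ∧
    (∀ (K : Type w) [Field K] (n : ℕ) (f : DG R b →* GL (Fin n) K), ¬ Function.Injective f) ∧
    ∃ g : DG R b, g ≠ 1 ∧ ∀ H : Subgroup (DG R b), H.FiniteIndex → g ∈ H := by
  refine ⟨Fin 3, RR, WW 0, inferInstance, by simp [RR], ?_, by simp [WW], noF, ?_,
    AD * (TD * BD * TD⁻¹) * ((TD * BD * TD⁻¹) * AD)⁻¹, ?_, ?_⟩
  · intro p hp
    simp only [RR, Set.mem_insert_iff, Set.mem_singleton_iff] at hp
    rcases hp with rfl | rfl | rfl | rfl <;> simp [RR]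
  · intro K _ n f hf
    apply not_commD
    apply hf
    apply Units.ext
    have := fd (K := K) (f TD).1 (f TD⁻¹).1 (f BD).1 (f AD).1
      (by rw [← Units.val_mul, ← map_mul]; simp) (fun n => by
        have := congrArg (fun x => (f x).1) (commD n).eq
        simp only [map_mul, map_pow, Units.val_mul, Units.val_pow_eq_pow_val] at this
        exact this)
    simpa only [map_mul, Units.val_mul] using this.eq
  · rw [Ne, mul_inv_eq_one]; exact not_commD
  · intro H hH
    apply H.normalCore_le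
    rw [← QuotientGroup.eq_one_iff]
    let q := QuotientGroup.mk' H.normalCore
    show q _ = 1
    obtain ⟨m, hm, h1⟩ := (isOfFinOrder_of_finite (q TD)).exists_pow_eq_one
    obtain ⟨m, rfl⟩ := Nat.exists_eq_add_of_lt hm
    rw [zero_add, pow_succ] at h1
    have h2 : q TD ^ m = (q TD)⁻¹ := eq_inv_of_mul_eq_one_left h1
    have h3 := (commD m).map q
    simp only [map_mul, map_pow, map_inv, inv_pow, h2, inv_inv] at h3
    simp only [map_mul, map_inv, mul_inv_eq_one]
    exact h3.eq

end Pool.Agent.Results.MP_f02a84_al.NotRF
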